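import Mathlib
import Pool.Agent.Helper600R2.CM.CoreE
import Pool.Agent.Helper600R2.CM.NumL
import Pool.Agent.Helper600R2.CM.P1

/-!
Frege + universal reduction, where the reduction is applied to formulas of size `N ^ (2 - ε)`,
needs exponentially many reductions for the parity formulas.
-/

namespace Pool.Agent.Results.MP_a6aa4e_lc.ShortReductions

open Finset

/-- Variables of the QBFs `∃ x_1 ... x_N ∀ u ∃ t_1 ... t_m`. -/
inductive Var (N m : ℕ) : Type
  | x : Fin N → Var N m
  | u : Var N m
  | t : Fin m → Var N m

/-- Propositional formulas, of unbounded depth. -/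
inductive Fml (N m : ℕ) : Type
  | const : Bool → Fml N m
  | var : Var N m → Fml N m
  | neg : Fml N m → Fml N m
  | and : Fml N m → Fml N m → Fml N m
  | or : Fml N m → Fml N m → Fml N m

variable {N m : ℕ}

/-- The assignment given by values of `x`, `u` and `t`. -/
def asg (x : Fin N → Bool) (u : Bool) (t : Fin m → Bool) : Var N m → Bool
  | .x i => x i
  | .u => u
  | .t j => t j

/-- Truth value of a formula. -/
def Fml.eval (x : Fin N → Bool) (u : Bool) (t : Fin m → Bool) : Fml N m → Bool
  | .const b => b
  | .var v => asg x u t v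
  | .neg f => !(f.eval x u t)
  | .and f g => f.eval x u t && g.eval x u t
  | .or f g => f.eval x u t || g.eval x u t

/-- Size of a formula: the number of occurrences of variables. -/
def Fml.size : Fml N m → ℕ
  | .const _ => 0
  | .var _ => 1
  | .neg f => f.size
  | .and f g => f.size + g.size
  | .or f g => f.size + g.size

/-- `f.subst B` is the formula `f[u/B]`: the formula `B` is substituted for the variable `u`. -/
def Fml.subst : Fml N m → Fml N m → Fml N m
  | .const b, _ => .const b
  | .var (.x i), _ => .var (.x i)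
  | .var .u, B => B
  | .var (.t j), _ => .var (.t j)
  | .neg f, B => .neg (f.subst B)
  | .and f g, B => .and (f.subst B) (g.subst B)
  | .or f g, B => .or (f.subst B) (g.subst B)

/-- The formula contains no variable `t_j` (its rightmost variable in the prefix is at most
`u`). -/
def Fml.NoT : Fml N m → Prop
  | .const _ => True
  | .var (.x _) => True
  | .var .u => True
  | .var (.t _) => False
  | .neg f => f.NoT
  | .and f g => f.NoT ∧ g.NoT
  | .or f g => f.NoT ∧ g.NoT

/-- All variables of the formula are among the `x_i` (the variables to the left of `u`). -/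
def Fml.OnlyX : Fml N m → Prop
  | .const _ => True
  | .var (.x _) => True
  | .var .u => False
  | .var (.t _) => False
  | .neg f => f.OnlyX
  | .and f g => f.OnlyX ∧ g.OnlyX
  | .or f g => f.OnlyX ∧ g.OnlyX

/-- A clause: a list of literals; the literal `(v, s)` says that `v` has the value `s`. -/
abbrev Clause (N m : ℕ) := List (Var N m × Bool)

/-- All clauses of the matrix `M` are satisfied. -/
def Sat (M : List (Clause N m)) (x : Fin N → Bool) (u : Bool) (t : Fin m → Bool) : Prop :=
  ∀ C ∈ M, ∃ l ∈ C, asg x u t l.1 = l.2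

/-- The parity of `x_1, ..., x_N`. -/
def parity (x : Fin N → Bool) : Bool :=
  decide (Odd (univ.filter fun i => x i = true).card)

/-- The only answer to `x` by which the universal player can win is `u = parity x`: for the other
value of `u` there are values of `t` which satisfy the matrix. -/
def Forces (M : List (Clause N m)) : Prop :=
  ∀ (x : Fin N → Bool) (u : Bool), u ≠ parity x → ∃ t, Sat M x u t

/-- The parity formulas `∃ x_1 ... x_N ∀ u ∃ t_0 ... t_N` of
`t_0 = 0`, `t_(i+1) = t_i xor x_(i+1)`, `u ≠ t_N`: a 3-CNF with `4 * N + 3` clauses. -/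
def qparity (N : ℕ) : List (Clause N (N + 1)) :=
  [(.t 0, false)] :: [(.u, true), (.t (Fin.last N), true)] ::
    [(.u, false), (.t (Fin.last N), false)] ::
    (List.finRange N).flatMap (fun i => [
      [(.x i, true), (.t i.castSucc, true), (.t i.succ, false)],
      [(.x i, true), (.t i.castSucc, false), (.t i.succ, true)],
      [(.x i, false), (.t i.castSucc, true), (.t i.succ, true)],
      [(.x i, false), (.t i.castSucc, false), (.t i.succ, false)]])

/-- A refutation of the QBF `∃ x_1 ... x_N ∀ u ∃ t_1 ... t_m. M`, in which universal reduction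
is applied only to small formulas.  The lines are arbitrary formulas.  The lines `j ∈ red` are
obtained by universal reduction: `line j = (line i)[u/B j]` for some `i < j`, where `line i`
contains no variable `t`, and `B j` contains only variables `x`; here `line j` and `B j` have size
at most `s`.  Every other line is a semantic consequence of the matrix and all earlier lines.
Some line is identically false. -/
structure Refutation (M : List (Clause N m)) (s : ℕ) where
  len : ℕ
  line : ℕ → Fml N m
  red : Finset ℕ
  red_lt : ∀ j ∈ red, j < len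
  B : ℕ → Fml N m
  reduce : ∀ j ∈ red, (∃ i < j, (line i).NoT ∧ line j = (line i).subst (B j)) ∧ (B j).OnlyX ∧
    (line j).size ≤ s ∧ (B j).size ≤ s
  infer : ∀ j < len, j ∉ red → ∀ x u t, Sat M x u t → (∀ i < j, (line i).eval x u t = true) →
    (line j).eval x u t = true
  final : ∃ j < len, ∀ x u t, (line j).eval x u t = false

theorem onlyX_eval (f : Fml N m) (h : f.OnlyX) (x : Fin N → Bool) (u u' : Bool)
    (t t' : Fin m → Bool) : f.eval x u t = f.eval x u' t' := by
  induction f with
  | const b => rfl
  | var v =>
    cases v with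
    | x i => rfl
    | u => exact absurd h (by simp [Fml.OnlyX])
    | t j => exact absurd h (by simp [Fml.OnlyX])
  | neg f ih => simp only [Fml.eval, ih h]
  | and f g ihf ihg => simp only [Fml.eval, ihf h.1, ihg h.2]
  | or f g ihf ihg => simp only [Fml.eval, ihf h.1, ihg h.2]

theorem noT_eval (f : Fml N m) (h : f.NoT) (x : Fin N → Bool) (u : Bool)
    (t t' : Fin m → Bool) : f.eval x u t = f.eval x u t' := by
  induction f with
  | const b => rfl
  | var v =>
    cases v with
    | x i => rfl
    | u => rfl
    | t j => exact absurd h (by simp [Fml.NoT])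
  | neg f ih => simp only [Fml.eval, ih h]
  | and f g ihf ihg => simp only [Fml.eval, ihf h.1, ihg h.2]
  | or f g ihf ihg => simp only [Fml.eval, ihf h.1, ihg h.2]

theorem subst_eval (B f : Fml N m) (x : Fin N → Bool) (u : Bool) (t : Fin m → Bool) :
    (f.subst B).eval x u t = f.eval x (B.eval x u t) t := by
  induction f with
  | const b => rfl
  | var v =>
    cases v with
    | x i => rfl
    | u => rfl
    | t j => rfl
  | neg f ih => simp only [Fml.subst, Fml.eval, ih]
  | and f g ihf ihg => simp only [Fml.subst, Fml.eval, ihf, ihg]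
  | or f g ihf ihg => simp only [Fml.subst, Fml.eval, ihf, ihg]

/-- truth value of a formula in the variables `x` -/
def tr (f : Fml N m) (x : Fin N → Bool) : Bool := f.eval x false (fun _ => false)

theorem red_eval {M : List (Clause N m)} {s : ℕ} (ref : Refutation M s) (j : ℕ)
    (hj : j ∈ ref.red) (x : Fin N → Bool) (u : Bool) (t : Fin m → Bool) :
    (ref.line j).eval x u t = tr (ref.line j) x := by
  obtain ⟨⟨i, _, hi, he⟩, hB, _⟩ := ref.reduce j hj
  rw [tr, he, subst_eval, subst_eval, onlyX_eval _ hB x u false t (fun _ => false)]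
  exact noT_eval _ hi _ _ _ _

/-- strategy extraction -/
theorem extract {M : List (Clause N m)} {s : ℕ} (ref : Refutation M s) (hF : Forces M)
    (x : Fin N → Bool) : ∃ j, j ∈ ref.red ∧ tr (ref.line j) x = false ∧
      (∀ i < j, i ∈ ref.red → tr (ref.line i) x = true) ∧ tr (ref.B j) x = parity x := by
  by_cases h : ∃ j, j ∈ ref.red ∧ tr (ref.line j) x = false
  · classical
    obtain ⟨hj1, hj2⟩ := Nat.find_spec h
    have hmin : ∀ i < Nat.find h, i ∈ ref.red → tr (ref.line i) x = true := by
      intro i hi hir
      have h1 := Nat.find_min h hi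
      cases h2 : tr (ref.line i) x
      · exact absurd ⟨hir, h2⟩ h1
      · rfl
    refine ⟨Nat.find h, hj1, hj2, hmin, ?_⟩
    by_contra hne
    obtain ⟨t, ht⟩ := hF x _ hne
    have hall : ∀ i, i < Nat.find h →
        (ref.line i).eval x (tr (ref.B (Nat.find h)) x) t = true := by
      intro i
      induction i using Nat.strong_induction_on with
      | _ i ih =>
        intro hi
        by_cases hir : i ∈ ref.red
        · rw [red_eval ref i hir]
          exact hmin i hi hir
        · exact ref.infer i (hi.trans (ref.red_lt _ hj1)) hir x _ t ht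
            (fun k hk => ih k hk (hk.trans hi))
    obtain ⟨⟨i, hi, hit, he⟩, _, _⟩ := ref.reduce _ hj1
    have h3 := hall i hi
    rw [noT_eval _ hit x _ t (fun _ => false)] at h3
    have h4 : tr (ref.line (Nat.find h)) x = true := by
      have h5 : tr (ref.line (Nat.find h)) x =
          tr ((ref.line i).subst (ref.B (Nat.find h))) x := congrArg (fun f => tr f x) he
      rw [h5, tr, subst_eval]
      exact h3
    rw [hj2] at h4
    exact absurd h4 (by simp)
  · exfalso
    obtain ⟨t, ht⟩ := hF x (!(parity x)) (by cases parity x <;> simp)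
    have hall : ∀ i, i < ref.len → (ref.line i).eval x (!(parity x)) t = true := by
      intro i
      induction i using Nat.strong_induction_on with
      | _ i ih =>
        intro hi
        by_cases hir : i ∈ ref.red
        · rw [red_eval ref i hir]
          cases h2 : tr (ref.line i) x
          · exact absurd ⟨i, hir, h2⟩ h
          · rfl
        · exact ref.infer i hi hir x _ t ht (fun k hk => ih k hk (hk.trans hi))
    obtain ⟨j, hj, hjf⟩ := ref.final
    have h1 := hall j hj
    rw [hjf] at h1
    exact absurd h1 (by simp)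

open H542 (T evs leavess comb evs_comb leavess_comb)
open Pool.Agent.Helper600R2 Pool.Agent.Helper600R2.CM Pool.Agent.H564R2.QF
open Pool.Agent.Helper600R2.CM.DW Pool.Agent.Helper600R2.CM.DW3

/-- partial inverse of an injection -/
noncomputable def pinv {A : Type} (e : A ↪ Fin N) (v : Fin N) : Option A := by
  classical
  exact if h : ∃ w, e w = v then some h.choose else none

theorem pinv_apply {A : Type} (e : A ↪ Fin N) (w : A) : pinv e (e w) = some w := by
  classical
  unfold pinv
  have h : ∃ w', e w' = e w := ⟨w, rfl⟩
  simp only [dif_pos h]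
  exact congrArg some (e.injective h.choose_spec)

theorem pinv_some {A : Type} (e : A ↪ Fin N) (v : Fin N) (w : A) (h : pinv e v = some w) :
    e w = v := by
  classical
  unfold pinv at h
  by_cases h1 : ∃ w, e w = v
  · rw [dif_pos h1] at h
    have h2 := Option.some.inj h
    rw [← h2]
    exact h1.choose_spec
  · rw [dif_neg h1] at h
    exact absurd h (by simp)

/-- extension of an assignment by `false` -/
noncomputable def up {A : Type} (e : A ↪ Fin N) (z : A → Bool) (v : Fin N) : Bool :=
  match pinv e v with
  | some w => z w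
  | none => false

theorem up_update {A : Type} [DecidableEq A] (e : A ↪ Fin N) (z : A → Bool) (w : A) (b : Bool) :
    up e (Function.update z w b) = Function.update (up e z) (e w) b := by
  funext v
  by_cases hv : v = e w
  · subst hv
    rw [Function.update_self]
    unfold up
    rw [pinv_apply]
    simp
  · rw [Function.update_of_ne hv]
    unfold up
    cases h : pinv e v with
    | none => rfl
    | some w' =>
      have h1 : w' ≠ w := by
        rintro rfl
        exact hv (pinv_some e v w' h).symm
      simp only [Function.update_of_ne h1]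

theorem up_apply {A : Type} (e : A ↪ Fin N) (z : A → Bool) (w : A) :
    up e z (e w) = z w := by
  unfold up
  rw [pinv_apply]

/-- negation normal form over `A`, the other variables being set to `false` -/
noncomputable def conv {A : Type} (e : A ↪ Fin N) (s : Bool) : Fml N m → T A ⊕ Bool
  | .const b => .inr (b == s)
  | .var (.x v) => match pinv e v with
    | some w => .inl (.lit w s)
    | none => .inr (false == s)
  | .var .u => .inr (false == s)
  | .var (.t _) => .inr (false == s)
  | .neg f => conv e (!s) f
  | .and f g => comb s (conv e s f) (conv e s g)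
  | .or f g => comb (!s) (conv e s f) (conv e s g)

theorem evs_conv {A : Type} (e : A ↪ Fin N) (z : A → Bool) (s : Bool)
    (f : Fml N m) : evs z (conv e s f) = (tr f (up e z) == s) := by
  induction f generalizing s with
  | const b => rfl
  | var v =>
    cases v with
    | x v =>
      simp only [conv, tr, Fml.eval, asg, up]
      cases pinv e v with
      | some w => rfl
      | none => rfl
    | u => rfl
    | t j => rfl
  | neg f ih =>
    simp only [conv, tr, Fml.eval, ih]
    cases f.eval (up e z) false (fun _ => false) <;> cases s <;> rfl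
  | and f g ihf ihg =>
    simp only [conv, tr, Fml.eval, evs_comb, ihf, ihg]
    cases f.eval (up e z) false (fun _ => false) <;>
      cases g.eval (up e z) false (fun _ => false) <;> cases s <;> rfl
  | or f g ihf ihg =>
    simp only [conv, tr, Fml.eval, evs_comb, ihf, ihg]
    cases f.eval (up e z) false (fun _ => false) <;>
      cases g.eval (up e z) false (fun _ => false) <;> cases s <;> rfl

theorem leavess_conv {A : Type} (e : A ↪ Fin N) (s : Bool) (f : Fml N m) :
    leavess (conv e s f) ≤ f.size := by
  induction f generalizing s with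
  | const b => simp [conv, leavess]
  | var v =>
    cases v with
    | x v =>
      simp only [conv, Fml.size]
      cases pinv e v with
      | some w => exact le_rfl
      | none => exact Nat.zero_le _
    | u => exact Nat.zero_le _
    | t j => exact Nat.zero_le _
  | neg f ih => exact ih (!s)
  | and f g ihf ihg =>
    exact (leavess_comb _ _ _).trans (add_le_add (ihf s) (ihg s))
  | or f g ihf ihg =>
    exact (leavess_comb _ _ _).trans (add_le_add (ihf s) (ihg s))

theorem parity_update (x : Fin N → Bool) (v : Fin N) :
    parity (Function.update x v (!(x v))) = !(parity x) := by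
  classical
  unfold parity
  have h0 : ∀ c : ℕ, decide (Odd (c + 1)) = !(decide (Odd c)) := by
    intro c
    by_cases h : Odd c <;> simp [h, Nat.odd_add_one]
  cases hx : x v
  · have h1 : (univ.filter fun i => Function.update x v (!false) i = true) =
        insert v (univ.filter fun i => x i = true) := by
      ext i
      by_cases hi : i = v
      · subst hi; simp
      · simp [Function.update_of_ne hi, hi]
    rw [h1, card_insert_of_notMem (by simp [hx])]
    exact h0 _
  · have h1 : (univ.filter fun i => x i = true) =
        insert v (univ.filter fun i => Function.update x v (!true) i = true) := by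
      ext i
      by_cases hi : i = v
      · subst hi; simp [hx]
      · simp [Function.update_of_ne hi, hi]
    rw [h1, card_insert_of_notMem (by simp), h0, Bool.not_not]

/-- weighted sums -/
noncomputable def acc {Y : Type} (g : ℕ → Y → ℝ) : ℕ → Y → ℝ
  | 0 => 0
  | k + 1 => (3 : ℝ) • acc g k + g k

theorem acc_zero {Y : Type} (g : ℕ → Y → ℝ) (y : Y) (k : ℕ) (h : ∀ i < k, g i y = 0) :
    acc g k y = 0 := by
  induction k with
  | zero => rfl
  | succ k ih =>
    simp only [acc, Pi.add_apply, Pi.smul_apply, smul_eq_mul]
    rw [ih (fun i hi => h i (by omega)), h k (by omega)]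
    ring

theorem acc_pos {Y : Type} (g : ℕ → Y → ℝ) (y : Y) (σ : ℝ) (hσ : σ * σ = 1) (j : ℕ)
    (h : ∀ i < j, g i y = 0) (hj : g j y = σ) (hg : ∀ i, |g i y| ≤ 1) (k : ℕ) (hk : j < k) :
    1 ≤ σ * acc g k y := by
  have hσ1 : |σ| ≤ 1 := by rw [← hj]; exact hg j
  induction k with
  | zero => omega
  | succ k ih =>
    simp only [acc, Pi.add_apply, Pi.smul_apply, smul_eq_mul]
    rcases Nat.lt_succ_iff_lt_or_eq.mp hk with h1 | h1
    · have h2 := ih h1
      have h3 : |σ * g k y| ≤ 1 := by
        rw [abs_mul]
        calc |σ| * |g k y| ≤ 1 * 1 := by gcongr; exact hg k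
          _ = 1 := by norm_num
      have h4 := (abs_le.mp h3).1
      nlinarith
    · subst h1
      rw [acc_zero g y j h, hj]
      nlinarith

theorem sum_flip {n w : ℕ} (σ : (Fin n → Bool) → ℝ)
    (hσ : ∀ y i, σ (Function.update y i (!(y i))) = -σ y) (f : (Fin n → Bool) → ℝ)
    (hf : f ∈ J (ι := Fin n) (α := Bool) ℝ w) (hw : w < n) : ∑ y, σ y * f y = 0 := by
  classical
  unfold J at hf
  induction hf using Submodule.span_induction with
  | mem f hf =>
    obtain ⟨B, hB, hd⟩ := hf
    obtain ⟨i, hi⟩ : ∃ i, i ∉ B := by
      by_contra hcon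
      push Not at hcon
      have h1 : B = univ := eq_univ_iff_forall.mpr hcon
      rw [h1, card_univ, Fintype.card_fin] at hB
      omega
    let F : Equiv.Perm (Fin n → Bool) :=
      Function.Involutive.toPerm (fun y => Function.update y i (!(y i))) (by
        intro y
        simp)
    have h1 : ∑ y, σ y * f y = ∑ y, σ (F y) * f (F y) := (Equiv.sum_comp F _).symm
    have h2 : ∀ y, σ (F y) * f (F y) = -(σ y * f y) := by
      intro y
      have h3 : F y = Function.update y i (!(y i)) := rfl
      have h4 : f (F y) = f y := by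
        rw [h3]
        apply hd
        intro k hk
        rw [Function.update_of_ne]
        rintro rfl
        exact hi hk
      rw [h4, h3, hσ]
      ring
    rw [Finset.sum_congr rfl (fun y _ => h2 y), Finset.sum_neg_distrib] at h1
    linarith
  | zero => simp
  | add f g _ _ h1 h2 =>
    simp only [Pi.add_apply, mul_add, Finset.sum_add_distrib, h1, h2, add_zero]
  | smul c f _ h1 =>
    have h2 : ∀ y, σ y * (c • f) y = c * (σ y * f y) := by
      intro y
      simp only [Pi.smul_apply, smul_eq_mul]
      ring
    rw [Finset.sum_congr rfl (fun y _ => h2 y), ← Finset.mul_sum, h1, mul_zero]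

/-- number of true variables among `2 ^ k` consecutive ones -/
def wv (x : Fin N → Bool) (i : ℕ) : Bool := if h : i < N then x ⟨i, h⟩ else false

/-- number of true values -/
def cnt (x : Fin N → Bool) (a n : ℕ) : ℕ := ∑ i ∈ range n, if wv x (a + i) = true then 1 else 0

theorem odd_xor (p q : ℕ) : decide (Odd (p + q)) = xor (decide (Odd p)) (decide (Odd q)) := by
  rcases Nat.mod_two_eq_zero_or_one p with hp | hp <;>
    rcases Nat.mod_two_eq_zero_or_one q with hq | hq <;>
    simp [Nat.odd_iff, Nat.add_mod, hp, hq]

theorem cnt_add (x : Fin N → Bool) (a n k : ℕ) : cnt x a (n + k) = cnt x a n + cnt x (a + n) k := by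
  unfold cnt
  rw [Finset.sum_range_add]
  simp only [add_assoc]

theorem cnt_N (x : Fin N → Bool) : decide (Odd (cnt x 0 N)) = parity x := by
  unfold cnt parity
  rw [Finset.sum_range, Finset.card_filter]
  have h : (∑ i : Fin N, if wv x (0 + i.1) = true then 1 else 0) =
      ∑ i : Fin N, if x i = true then 1 else 0 := by
    apply Finset.sum_congr rfl
    intro i _
    have h1 : wv x (0 + i.1) = x i := by
      unfold wv
      rw [dif_pos (by have := i.2; omega)]
      congr 1
      ext
      simp
    rw [h1]
  rw [h]

/-- leaf -/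
def lf (i : ℕ) : Fml N m := if h : i < N then .var (.x ⟨i, h⟩) else .const false

/-- exclusive or -/
def Fml.xor (f g : Fml N m) : Fml N m := .or (.and f (.neg g)) (.and (.neg f) g)

/-- the parity of `2 ^ k` consecutive variables -/
def pf : ℕ → ℕ → Fml N m
  | 0, a => lf a
  | k + 1, a => (pf k a).xor (pf k (a + 2 ^ k))

theorem pf_eval (k a : ℕ) (x : Fin N → Bool) (u : Bool) (t : Fin m → Bool) :
    (pf k a : Fml N m).eval x u t = decide (Odd (cnt x a (2 ^ k))) := by
  induction k generalizing a with
  | zero =>
    simp only [pf, lf, pow_zero, cnt, Finset.sum_range_one, add_zero, wv]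
    by_cases h : a < N
    · simp only [dif_pos h, Fml.eval, asg]
      cases x ⟨a, h⟩ <;> simp
    · simp [dif_neg h, Fml.eval]
  | succ k ih =>
    rw [pow_succ, mul_two, cnt_add, odd_xor]
    simp only [pf, Fml.xor, Fml.eval, ih]
    cases decide (Odd (cnt x a (2 ^ k))) <;> cases decide (Odd (cnt x (a + 2 ^ k) (2 ^ k))) <;> rfl

theorem pf_size (k a : ℕ) : (pf k a : Fml N m).size ≤ 4 ^ k := by
  induction k generalizing a with
  | zero =>
    simp only [pf, lf]
    by_cases h : a < N
    · simp [dif_pos h, Fml.size]
    · simp [dif_neg h, Fml.size]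
  | succ k ih =>
    simp only [pf, Fml.xor, Fml.size]
    have h1 := ih a
    have h2 := ih (a + 2 ^ k)
    rw [pow_succ]
    omega

theorem pf_onlyX (k a : ℕ) : (pf k a : Fml N m).OnlyX := by
  induction k generalizing a with
  | zero =>
    simp only [pf, lf]
    by_cases h : a < N
    · simp [dif_pos h, Fml.OnlyX]
    · simp [dif_neg h, Fml.OnlyX]
  | succ k ih =>
    simp only [pf, Fml.xor, Fml.OnlyX]
    exact ⟨⟨ih _, ih _⟩, ih _, ih _⟩

theorem onlyX_subst (f B : Fml N m) (h : f.OnlyX) : f.subst B = f := by
  induction f with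
  | const b => rfl
  | var v =>
    cases v with
    | x i => rfl
    | u => exact absurd h (by simp [Fml.OnlyX])
    | t j => rfl
  | neg f ih => simp only [Fml.subst, ih h]
  | and f g ihf ihg => simp only [Fml.subst, ihf h.1, ihg h.2]
  | or f g ihf ihg => simp only [Fml.subst, ihf h.1, ihg h.2]

theorem onlyX_noT (f : Fml N m) (h : f.OnlyX) : f.NoT := by
  induction f with
  | const b => trivial
  | var v =>
    cases v with
    | x i => trivial
    | u => trivial
    | t j => exact absurd h (by simp [Fml.OnlyX])
  | neg f ih => exact ih h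
  | and f g ihf ihg => exact ⟨ihf h.1, ihg h.2⟩
  | or f g ihf ihg => exact ⟨ihf h.1, ihg h.2⟩

theorem pf_parity (k : ℕ) (hk : N ≤ 2 ^ k) (x : Fin N → Bool) (u : Bool) (t : Fin m → Bool) :
    (pf k 0 : Fml N m).eval x u t = parity x := by
  rw [pf_eval, ← cnt_N]
  obtain ⟨r, hr⟩ := Nat.exists_eq_add_of_le hk
  rw [hr, cnt_add]
  have h : cnt x (0 + N) r = 0 := by
    unfold cnt
    apply Finset.sum_eq_zero
    intro i _
    have h1 : wv x (0 + N + i) = false := by
      unfold wv
      rw [dif_neg (by omega)]
    rw [h1]
    rfl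
  rw [h, add_zero]

/-- one reduction suffices if it may be applied to formulas of size `16 * N ^ 2` -/
theorem upper (hN : 1 ≤ N) (M : List (Clause N m)) (hM : ∀ x u t, Sat M x u t → u ≠ parity x) :
    ∃ ref : Refutation M (16 * N ^ 2), ref.red.card = 1 := by
  obtain ⟨k, hk1, hk2⟩ : ∃ k, N ≤ 2 ^ k ∧ 2 ^ k ≤ 2 * N := by
    refine ⟨Nat.clog 2 N, Nat.le_pow_clog (by omega) N, ?_⟩
    rcases Nat.lt_or_ge 1 N with h | h
    · have h1 := Nat.pow_pred_clog_lt_self (b := 2) (by omega) h
      have h2 : 0 < Nat.clog 2 N := Nat.clog_pos (by omega) h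
      have h3 : 2 ^ Nat.clog 2 N = 2 * 2 ^ (Nat.clog 2 N).pred := by
        rw [← pow_succ']
        congr 1
        have := Nat.succ_pred_eq_of_pos h2
        omega
      rw [h3]
      omega
    · have h1 : N = 1 := by omega
      subst h1
      simp
  have hs : 4 * (4 : ℕ) ^ k ≤ 16 * N ^ 2 := by
    have h1 : (4 : ℕ) ^ k = (2 ^ k) ^ 2 := by
      rw [← pow_mul, mul_comm, pow_mul]
      norm_num
    rw [h1]
    nlinarith
  let P : Fml N m := pf k 0
  have hP : P.size ≤ 4 ^ k := pf_size k 0
  have hPX : P.OnlyX := pf_onlyX k 0
  have hPe : ∀ x u t, P.eval x u t = parity x := pf_parity k hk1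
  have hPs : P.subst P = P := onlyX_subst P P hPX
  refine ⟨{
    len := 2
    line := fun j => if j = 0 then (Fml.var .u).xor P else ((Fml.var .u).xor P).subst P
    red := {1}
    red_lt := by intro j hj; rw [mem_singleton] at hj; omega
    B := fun _ => P
    reduce := ?_
    infer := ?_
    final := ?_ }, rfl⟩
  · intro j hj
    rw [mem_singleton] at hj
    subst hj
    refine ⟨⟨0, by omega, ?_, ?_⟩, hPX, ?_, ?_⟩
    · simp only [if_true, Fml.xor, Fml.NoT]
      exact ⟨⟨trivial, onlyX_noT P hPX⟩, trivial, onlyX_noT P hPX⟩
    · simp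
    · simp only [one_ne_zero, if_false, Fml.xor, Fml.subst, Fml.size, hPs]
      omega
    · omega
  · intro j hj hjr x u t hS _
    have hj0 : j = 0 := by
      rw [mem_singleton] at hjr
      omega
    subst hj0
    have h1 := hM x u t hS
    simp only [if_true, Fml.xor, Fml.eval, hPe, asg]
    revert h1
    cases u <;> cases parity x <;> simp
  · refine ⟨1, by omega, fun x u t => ?_⟩
    simp only [one_ne_zero, if_false, Fml.xor, Fml.subst, Fml.eval, hPs, hPe]
    cases parity x <;> rfl

theorem sat_qparity (x : Fin N → Bool) (u : Bool) (t : Fin (N + 1) → Bool) :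
    Sat (qparity N) x u t ↔ (t 0 = false ∧ u ≠ t (Fin.last N) ∧
      ∀ i : Fin N, t i.succ = xor (t i.castSucc) (x i)) := by
  constructor
  · intro h
    refine ⟨?_, ?_, ?_⟩
    · simpa [asg] using h [(.t 0, false)] (by simp [qparity])
    · have h1 := h [(.u, true), (.t (Fin.last N), true)] (by simp [qparity])
      have h2 := h [(.u, false), (.t (Fin.last N), false)] (by simp [qparity])
      simp only [List.mem_cons, List.not_mem_nil, or_false, exists_eq_or_imp, exists_eq_left,
        asg] at h1 h2
      revert h1 h2
      cases u <;> cases t (Fin.last N) <;> simp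
    · intro i
      have h1 := h [(.x i, true), (.t i.castSucc, true), (.t i.succ, false)] (by
        simp only [qparity, List.mem_cons, List.mem_flatMap]
        exact Or.inr (Or.inr (Or.inr ⟨i, List.mem_finRange i, Or.inl rfl⟩)))
      have h2 := h [(.x i, true), (.t i.castSucc, false), (.t i.succ, true)] (by
        simp only [qparity, List.mem_cons, List.mem_flatMap]
        exact Or.inr (Or.inr (Or.inr ⟨i, List.mem_finRange i, Or.inr (Or.inl rfl)⟩)))
      have h3 := h [(.x i, false), (.t i.castSucc, true), (.t i.succ, true)] (by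
        simp only [qparity, List.mem_cons, List.mem_flatMap]
        exact Or.inr (Or.inr (Or.inr ⟨i, List.mem_finRange i, Or.inr (Or.inr (Or.inl rfl))⟩)))
      have h4 := h [(.x i, false), (.t i.castSucc, false), (.t i.succ, false)] (by
        simp only [qparity, List.mem_cons, List.mem_flatMap]
        exact Or.inr (Or.inr (Or.inr ⟨i, List.mem_finRange i,
          Or.inr (Or.inr (Or.inr (Or.inl rfl)))⟩)))
      simp only [List.mem_cons, List.not_mem_nil, or_false, exists_eq_or_imp, exists_eq_left,
        asg] at h1 h2 h3 h4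
      revert h1 h2 h3 h4
      cases x i <;> cases t i.castSucc <;> cases t i.succ <;> simp
  · rintro ⟨h0, hu, ht⟩ C hC
    simp only [qparity, List.mem_cons, List.mem_flatMap, List.not_mem_nil, or_false] at hC
    rcases hC with rfl | rfl | rfl | ⟨i, _, rfl | rfl | rfl | rfl⟩
    · simpa [asg] using h0
    · simp only [List.mem_cons, List.not_mem_nil, or_false, exists_eq_or_imp, exists_eq_left,
        asg]
      revert hu
      cases u <;> cases t (Fin.last N) <;> simp
    · simp only [List.mem_cons, List.not_mem_nil, or_false, exists_eq_or_imp, exists_eq_left,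
        asg]
      revert hu
      cases u <;> cases t (Fin.last N) <;> simp
    all_goals
      have h1 := ht i
      simp only [List.mem_cons, List.not_mem_nil, or_false, exists_eq_or_imp, exists_eq_left,
        asg, h1]
      cases x i <;> cases t i.castSucc <;> simp

theorem qparity_t (x : Fin N → Bool) (t : Fin (N + 1) → Bool) (h0 : t 0 = false)
    (ht : ∀ i : Fin N, t i.succ = xor (t i.castSucc) (x i)) (i : ℕ) (hi : i < N + 1) :
    t ⟨i, hi⟩ = decide (Odd (cnt x 0 i)) := by
  induction i with
  | zero => simpa [cnt] using h0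
  | succ i ih =>
    have h1 := ht ⟨i, by omega⟩
    have h2 : (⟨i + 1, hi⟩ : Fin (N + 1)) = (⟨i, by omega⟩ : Fin N).succ := rfl
    have h3 : (⟨i, by omega⟩ : Fin N).castSucc = (⟨i, by omega⟩ : Fin (N + 1)) := rfl
    rw [h2, h1, h3, ih, cnt_add, odd_xor]
    congr 1
    simp only [cnt, Finset.sum_range_one, zero_add, add_zero, wv]
    rw [dif_pos (show i < N by omega)]
    cases x ⟨i, by omega⟩ <;> simp

theorem qparity_forces : Forces (qparity N) := by
  intro x u hu
  refine ⟨fun i => decide (Odd (cnt x 0 i.1)), (sat_qparity x u _).mpr ⟨?_, ?_, ?_⟩⟩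
  · simp [cnt]
  · simpa [cnt_N] using hu
  · intro i
    show decide (Odd (cnt x 0 (i.1 + 1))) = xor (decide (Odd (cnt x 0 i.1))) (x i)
    rw [cnt_add, odd_xor]
    congr 1
    simp only [cnt, Finset.sum_range_one, zero_add, add_zero, wv]
    rw [dif_pos i.2]
    cases x i <;> simp

theorem qparity_false (x : Fin N → Bool) (u : Bool) (t : Fin (N + 1) → Bool)
    (h : Sat (qparity N) x u t) : u ≠ parity x := by
  obtain ⟨h0, hu, ht⟩ := (sat_qparity x u t).mp h
  have h1 := qparity_t x t h0 ht N (by omega)
  rw [cnt_N] at h1
  rw [← h1]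
  exact hu

/-- For every `ε > 0` there is a `δ > 0` such that for all large `N` the following holds for every
QBF `∃ x_1 ... x_N ∀ u ∃ t_1 ... t_m. M` in which the universal player has to answer with the
parity of `x_1, ..., x_N`: every refutation which applies universal reduction only to formulas of
size at most `N ^ (2 - ε)` contains at least `exp (N ^ δ)` universal reductions. -/
theorem lower (ε : ℝ) (hε : 0 < ε) :
    ∃ (δ : ℝ) (N0 : ℕ), 0 < δ ∧ ∀ N ≥ N0, ∀ (m : ℕ) (M : List (Clause N m)), Forces M →
      ∀ s : ℕ, (s : ℝ) ≤ (N : ℝ) ^ (2 - ε) → ∀ ref : Refutation M s,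
        Real.exp ((N : ℝ) ^ δ) ≤ ref.red.card := by
  classical
  obtain ⟨x, hx⟩ : ∃ x, x = min ε (1 / 2) / (2 * (24 : ℝ) + 16) := ⟨_, rfl⟩
  have hmin : 0 < min ε (1 / 2) := lt_min hε (by norm_num)
  have hx0 : 0 < x := by rw [hx]; positivity
  have hxe : (2 * (24 : ℝ) + 16) * x = min ε (1 / 2) := by
    rw [hx]
    field_simp
  have hx1 : (2 * (24 : ℝ) + 16) * x ≤ 1 / 2 := by
    rw [hxe]
    exact min_le_right ε (1 / 2)
  have hxε : (2 * (24 : ℝ) + 16) * x ≤ ε := by
    rw [hxe]
    exact min_le_left ε (1 / 2)
  obtain ⟨N0, hnum⟩ := NumL.numL 1 1 24 1 x (by omega) le_rfl one_pos (by norm_num) hx0 hx1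
  obtain ⟨N1, hN1⟩ : ∃ N1 : ℕ, ∀ N ≥ N1, (2 : ℝ) ≤ (N : ℝ) ^ x := by
    have h := (tendsto_rpow_atTop hx0).comp tendsto_natCast_atTop_atTop
    have h2 := h.eventually_ge_atTop 2
    rw [Filter.eventually_atTop] at h2
    obtain ⟨N1, h3⟩ := h2
    exact ⟨N1, h3⟩
  refine ⟨x, max N0 (max N1 1), hx0, fun N hN m M hM s hs ref => ?_⟩
  have hN0 : N0 ≤ N := (le_max_left _ _).trans hN
  have hN1x : N1 ≤ N := (le_max_left _ _).trans ((le_max_right _ _).trans hN)
  have hN1' : (1 : ℝ) ≤ N := by
    exact_mod_cast (le_max_right _ _).trans ((le_max_right _ _).trans hN)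
  obtain ⟨n, kk, κ, s0, d, mm, t, hn, hk, hsum, hκ, hs0, ht, htk, hsT, hcount, hfan,
    hSr⟩ := hnum N hN0
  let A := Vd n kk κ
  have hA : Fintype.card A ≤ N := by
    simp only [A, Fintype.card_sum, Fintype.card_prod, Fintype.card_fin]
    refine le_trans ?_ hsum
    nlinarith [Nat.zero_le (n * kk), Nat.zero_le (n * κ)]
  obtain ⟨e⟩ : Nonempty (A ↪ Fin N) :=
    Function.Embedding.nonempty_of_card_le (by rw [Fintype.card_fin]; exact hA)
  obtain ⟨_, hD4⟩ := core3E P1.proof_P1 (n := n) (k := kk) (κ := κ) hk d ht htk hsT mm
    (Real.exp (-(N : ℝ) ^ (2 * x))) (Real.exp_pos _)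
    (by
      refine lt_of_le_of_lt ?_ hcount
      rw [Fintype.card_fun, Fintype.card_fin, Fintype.card_option, Fintype.card_sum,
        Fintype.card_prod, Fintype.card_bool, Fintype.card_fun,
        Fintype.card_bool, Fintype.card_fin, Fintype.card_fin]
      have e1 : (n : ℝ) ≤ 2 * n * (1 : ℕ) := by
        push_cast
        have : (0 : ℝ) ≤ n := by positivity
        linarith
      have hX0 : (0 : ℝ) ≤ (192 - 1) * mm / 2 ^ κ := by
        apply div_nonneg _ (by positivity)
        norm_num
      push_cast at e1 ⊢
      apply mul_le_mul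
      · apply pow_le_pow_left₀ (by positivity)
        have h1 : (Fintype.card A : ℝ) ≤ N := by exact_mod_cast hA
        have h2 : (Fintype.card (Vd n kk κ) : ℝ) ≤ N := h1
        rw [Fintype.card_sum] at h2
        push_cast at h2
        linarith
      · apply pow_le_pow_left₀ (by positivity)
        apply mul_le_mul_of_nonneg_left _ (by positivity)
        apply Real.exp_le_exp.mpr
        exact mul_le_mul_of_nonneg_right e1 hX0
      · positivity
      · positivity)
  by_contra hcon
  push Not at hcon
  have hs' : s ≤ s0 := by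
    apply hs0
    refine hs.trans ?_
    apply Real.rpow_le_rpow_of_exponent_le hN1'
    linarith
  obtain ⟨sel, Z, hZf, hZ⟩ := hD4 ({j // j ∈ ref.red} × Bool)
    (fun p => if p.2 = true then conv e true (ref.line p.1.1) else conv e true (ref.B p.1.1))
    (by
      rintro ⟨⟨j, hj⟩, b⟩
      obtain ⟨_, _, h1, h2⟩ := ref.reduce j hj
      cases b
      · exact (leavess_conv e _ _).trans (h2.trans hs')
      · exact (leavess_conv e _ _).trans (h1.trans hs'))
    (by
      have h1 := hSr 2 (ref.red.card : ℝ) (by positivity) (by exact_mod_cast hN1 N hN1x) hcon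
      rw [Fintype.card_prod, Fintype.card_coe, Fintype.card_bool]
      push_cast at h1 ⊢
      exact h1)
  have hf := hfan 0 1 0 (by push_cast; positivity) (by
    push_cast
    exact Real.one_le_rpow hN1' hx0.le) (by push_cast; positivity)
  have hdn : d + d < n := by
    have hd : 2 * d ≤ 5 * d ^ 4 := by
      rcases Nat.eq_zero_or_pos d with h | h
      · simp [h]
      · have h1 : d ≤ d ^ 4 := by
          calc d = d ^ 1 := (pow_one d).symm
            _ ≤ d ^ 4 := Nat.pow_le_pow_right h (by norm_num)
        omega
    rw [Real.rpow_one] at hf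
    have h2 : 1 * ((0 + 1) ^ 2 * (0 + 1) ^ 2 * (1 * (5 * d ^ 4) + 1)) + 1 ≤ n := by
      exact_mod_cast hf
    omega
  -- the restriction
  let X : (Fin n → Bool) → (Fin N → Bool) := fun y => up e (Z y)
  have hXpar : ∀ y i, parity (X (Function.update y i (!(y i)))) = !(parity (X y)) := by
    intro y i
    have h1 : X (Function.update y i (!(y i))) =
        Function.update (X y) (e (.inl (i, sel i))) (!(X y (e (.inl (i, sel i))))) := by
      show up e (Z (Function.update y i (!(y i)))) = _
      rw [hZf, up_update]
      show _ = Function.update (up e (Z y)) (e (.inl (i, sel i)))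
        (!(up e (Z y) (e (.inl (i, sel i)))))
      rw [up_apply]
    rw [h1, parity_update]
  have hlow : ∀ j ∈ ref.red, toK ℝ (fun y => tr (ref.line j) (X y)) ∈
      J (ι := Fin n) (α := Bool) ℝ d := by
    intro j hj
    have h1 := hZ ℝ (⟨j, hj⟩, true)
    have h2 : (fun y => evs (Z y) (if ((⟨j, hj⟩, true) : {j // j ∈ ref.red} × Bool).2 = true then
        conv e true (ref.line j) else conv e true (ref.B j))) =
        fun y => tr (ref.line j) (X y) := by
      funext y
      simp only [if_true]
      rw [evs_conv]
      cases tr (ref.line j) (up e (Z y)) <;> rfl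
    rw [h2] at h1
    exact h1
  have hlowB : ∀ j ∈ ref.red, toK ℝ (fun y => tr (ref.B j) (X y)) ∈
      J (ι := Fin n) (α := Bool) ℝ d := by
    intro j hj
    have h1 := hZ ℝ (⟨j, hj⟩, false)
    have h2 : (fun y => evs (Z y) (if ((⟨j, hj⟩, false) : {j // j ∈ ref.red} × Bool).2 = true then
        conv e true (ref.line j) else conv e true (ref.B j))) =
        fun y => tr (ref.B j) (X y) := by
      funext y
      simp only [Bool.false_eq_true, if_false]
      rw [evs_conv]
      cases tr (ref.B j) (up e (Z y)) <;> rfl
    rw [h2] at h1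
    exact h1
  let g : ℕ → (Fin n → Bool) → ℝ := fun j =>
    if j ∈ ref.red then ((fun _ => 1) - toK ℝ (fun y => tr (ref.line j) (X y))) *
      ((fun _ => 1) - (2 : ℝ) • toK ℝ (fun y => tr (ref.B j) (X y))) else 0
  have hgJ : ∀ j, g j ∈ J (ι := Fin n) (α := Bool) ℝ (d + d) := by
    intro j
    by_cases hj : j ∈ ref.red
    · simp only [g, if_pos hj]
      exact J_mul (Submodule.sub_mem _ (J_const _ _) (hlow j hj))
        (Submodule.sub_mem _ (J_const _ _) (Submodule.smul_mem _ _ (hlowB j hj)))
    · simp only [g, if_neg hj]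
      exact Submodule.zero_mem _
  have haccJ : ∀ k, acc g k ∈ J (ι := Fin n) (α := Bool) ℝ (d + d) := by
    intro k
    induction k with
    | zero => exact Submodule.zero_mem _
    | succ k ih => exact Submodule.add_mem _ (Submodule.smul_mem _ _ ih) (hgJ k)
  have hg1 : ∀ j y, |g j y| ≤ 1 := by
    intro j y
    by_cases hj : j ∈ ref.red
    · simp only [g, if_pos hj, Pi.mul_apply, Pi.sub_apply, Pi.smul_apply, toK, smul_eq_mul]
      split_ifs <;> norm_num
    · simp only [g, if_neg hj, Pi.zero_apply, abs_zero]
      norm_num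
  let σ : (Fin n → Bool) → ℝ := fun y => if parity (X y) = true then -1 else 1
  have hσ : ∀ y i, σ (Function.update y i (!(y i))) = -σ y := by
    intro y i
    simp only [σ, hXpar]
    cases parity (X y) <;> simp
  have hpos : ∀ y, 1 ≤ σ y * acc g ref.len y := by
    intro y
    obtain ⟨j, hj, hjf, hji, hjB⟩ := extract ref hM (X y)
    refine acc_pos g y (σ y) ?_ j ?_ ?_ (fun i => hg1 i y) ref.len (ref.red_lt j hj)
    · simp only [σ]
      split_ifs <;> norm_num
    · intro i hi
      by_cases hir : i ∈ ref.red
      · simp only [g, if_pos hir, Pi.mul_apply, Pi.sub_apply, toK, hji i hi hir, if_true]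
        ring
      · simp only [g, if_neg hir, Pi.zero_apply]
    · simp only [g, if_pos hj, Pi.mul_apply, Pi.sub_apply, Pi.smul_apply, toK, smul_eq_mul, hjf,
        hjB, σ]
      cases parity (X y) <;> norm_num
  have h0 := sum_flip σ hσ (acc g ref.len) (haccJ ref.len) hdn
  have h1 : (0 : ℝ) < ∑ y : Fin n → Bool, σ y * acc g ref.len y :=
    Finset.sum_pos (fun y _ => lt_of_lt_of_le one_pos (hpos y)) univ_nonempty
  linarith

/-- (1) For every `ε > 0` there is a `δ > 0` such that for all large `N` the following holds for
every QBF `∃ x_1 ... x_N ∀ u ∃ t_1 ... t_m. M` in which the universal player can only win with the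
parity of `x_1, ..., x_N`: every refutation which applies universal reduction only to formulas of
size at most `N ^ (2 - ε)` contains at least `exp (N ^ δ)` universal reductions.
(2) If the universal player wins with the parity, there is a refutation with one universal
reduction, to a formula of size at most `16 * N ^ 2`.
(3) Both apply to the formulas `qparity N`. -/
theorem result :
    (∀ ε : ℝ, 0 < ε → ∃ (δ : ℝ) (N0 : ℕ), 0 < δ ∧
      ∀ N ≥ N0, ∀ (m : ℕ) (M : List (Clause N m)), Forces M →
        ∀ s : ℕ, (s : ℝ) ≤ (N : ℝ) ^ (2 - ε) → ∀ ref : Refutation M s,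
          Real.exp ((N : ℝ) ^ δ) ≤ ref.red.card) ∧
    (∀ N ≥ 1, ∀ (m : ℕ) (M : List (Clause N m)), (∀ x u t, Sat M x u t → u ≠ parity x) →
      ∃ ref : Refutation M (16 * N ^ 2), ref.red.card = 1) ∧
    (∀ N : ℕ, Forces (qparity N) ∧ ∀ x u t, Sat (qparity N) x u t → u ≠ parity x) :=
  ⟨lower, fun _ hN _ M hM => upper hN M hM,
    fun _ => ⟨qparity_forces, fun x u t h => qparity_false x u t h⟩⟩

end Pool.Agent.Results.MP_a6aa4e_lc.ShortReductions
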